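import Mathlib

open Metric Filter Topology
open scoped NNReal

namespace Pool.Agent.H137Z.WeakContr

theorem subadd_nsmul (g : ℝ≥0 → ℝ≥0) (h0 : g 0 = 0) (hs : ∀ s t, g (s + t) ≤ g s + g t)
    (t : ℝ≥0) (n : ℕ) : g (n * t) ≤ n * g t := by
  induction n with
  | zero => simp [h0]
  | succ n ih =>
    have : ((n + 1 : ℕ) : ℝ≥0) * t = n * t + t := by push_cast; ring
    rw [this]
    calc g (n * t + t) ≤ g (n * t) + g t := hs _ _
      _ ≤ n * g t + g t := by gcongr
      _ = ((n + 1 : ℕ) : ℝ≥0) * g t := by push_cast; ring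

theorem lin_lower (g : ℝ≥0 → ℝ≥0) (h0 : g 0 = 0) (hm : Monotone g)
    (hs : ∀ s t, g (s + t) ≤ g s + g t) (R t : ℝ≥0) (ht : 0 < t) (htR : t ≤ R) :
    (g R : ℝ) * t ≤ 2 * R * g t := by
  have htr : (0 : ℝ) < t := ht
  set n : ℕ := ⌈(R : ℝ) / t⌉₊ with hn
  have h1 : (R : ℝ) ≤ n * t := by
    have := Nat.le_ceil ((R : ℝ) / t)
    rw [← hn, div_le_iff₀ htr] at this
    exact this
  have h2 : (n : ℝ) * t ≤ 2 * R := by
    have := (Nat.ceil_lt_add_one (a := (R : ℝ) / t) (by positivity)).le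
    rw [← hn] at this
    have h3 : (n : ℝ) * t ≤ ((R : ℝ) / t + 1) * t := by gcongr
    have h4 : ((R : ℝ) / t + 1) * t = R + t := by field_simp
    have h5 : (t : ℝ) ≤ R := htR
    linarith
  have h3 : g R ≤ n * g t := by
    refine le_trans (hm ?_) (subadd_nsmul g h0 hs t n)
    exact_mod_cast h1
  have h4 : (g R : ℝ) ≤ n * g t := by exact_mod_cast h3
  have h5 : (0 : ℝ) ≤ g t := (g t).2
  calc (g R : ℝ) * t ≤ (n * g t) * t := by gcongr
    _ = (n * t) * g t := by ring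
    _ ≤ 2 * R * g t := by gcongr

theorem local_nadler {X : Type*} [MetricSpace X] [CompleteSpace X] (T : X → Set X)
    (hT : ∀ x, (T x).Nonempty ∧ IsClosed (T x) ∧ Bornology.IsBounded (T x))
    (hne : ∀ x y, hausdorffDist (T x) (T y) ≤ dist x y)
    (R c : ℝ) (hc : 0 < c) (hc1 : c ≤ 1)
    (hcon : ∀ x y, dist x y ≤ R → hausdorffDist (T x) (T y) ≤ (1 - c) * dist x y)
    (x0 x1 : X) (h1 : x1 ∈ T x0) (hR : dist x0 x1 ≤ R) : ∃ x, x ∈ T x := by
  have fin : ∀ x y, hausdorffEDist (T x) (T y) ≠ ⊤ := fun x y =>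
    hausdorffEDist_ne_top_of_nonempty_of_bounded (hT x).1 (hT y).1 (hT x).2.2 (hT y).2.2
  set k : ℝ := 1 - c / 2 with hk
  have hk0 : 0 ≤ k := by rw [hk]; linarith
  have hk1 : k < 1 := by rw [hk]; linarith
  have step : ∀ p : {p : X × X // p.2 ∈ T p.1 ∧ dist p.1 p.2 ≤ R},
      ∃ q : {p : X × X // p.2 ∈ T p.1 ∧ dist p.1 p.2 ≤ R},
        q.1.1 = p.1.2 ∧ dist q.1.1 q.1.2 ≤ k * dist p.1.1 p.1.2 := by
    rintro ⟨⟨x, y⟩, hy, hd⟩
    simp only at hy hd
    rcases eq_or_ne x y with rfl | hxy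
    · exact ⟨⟨(x, x), hy, hd⟩, rfl, by simp⟩
    · have hpos : 0 < dist x y := dist_pos.2 hxy
      have hlt : hausdorffDist (T x) (T y) < k * dist x y := by
        refine lt_of_le_of_lt (hcon x y hd) ?_
        rw [hk]; nlinarith
      obtain ⟨z, hz, hyz⟩ := exists_dist_lt_of_hausdorffDist_lt hy hlt (fin x y)
      refine ⟨⟨(y, z), hz, ?_⟩, rfl, hyz.le⟩
      simp only
      nlinarith
  choose F hF1 hF2 using step
  let p : ℕ → {p : X × X // p.2 ∈ T p.1 ∧ dist p.1 p.2 ≤ R} := fun n => F^[n] ⟨(x0, x1), h1, hR⟩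
  have hp : ∀ n, p (n + 1) = F (p n) := fun n => Function.iterate_succ_apply' F n _
  let u : ℕ → X := fun n => (p n).1.1
  have hu : ∀ n, u (n + 1) = (p n).1.2 := fun n => by
    show (p (n + 1)).1.1 = _
    rw [hp]; exact hF1 _
  have hmem : ∀ n, u (n + 1) ∈ T (u n) := fun n => by rw [hu]; exact (p n).2.1
  have hgeo : ∀ n, dist (p n).1.1 (p n).1.2 ≤ dist x0 x1 * k ^ n := by
    intro n
    induction n with
    | zero => simp [p]
    | succ n ih =>
      rw [hp]
      calc _ ≤ k * dist (p n).1.1 (p n).1.2 := hF2 _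
        _ ≤ k * (dist x0 x1 * k ^ n) := by gcongr
        _ = _ := by ring
  have hcau : CauchySeq u := by
    refine cauchySeq_of_le_geometric k (dist x0 x1) hk1 fun n => ?_
    rw [hu]; exact hgeo n
  obtain ⟨a, ha⟩ := cauchySeq_tendsto_of_complete hcau
  refine ⟨a, ?_⟩
  rw [(hT a).2.1.mem_iff_infDist_zero (hT a).1]
  refine le_antisymm ?_ infDist_nonneg
  have hb : ∀ n, infDist a (T a) ≤ dist (u n) a + dist a (u (n + 1)) := fun n => by
    have e1 : infDist a (T a) ≤ infDist (u (n + 1)) (T a) + dist a (u (n + 1)) :=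
      infDist_le_infDist_add_dist
    have e2 : infDist (u (n + 1)) (T a) ≤ hausdorffDist (T (u n)) (T a) :=
      infDist_le_hausdorffDist_of_mem (hmem n) (fin _ _)
    have e3 := hne (u n) a
    linarith
  have l1 : Tendsto (fun n => dist (u n) a) atTop (𝓝 0) := tendsto_iff_dist_tendsto_zero.1 ha
  have l2 : Tendsto (fun n => dist a (u (n + 1))) atTop (𝓝 0) := by
    have := (tendsto_add_atTop_iff_nat 1).2 l1
    simpa [dist_comm] using this
  have l3 := l1.add l2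
  rw [add_zero] at l3
  exact ge_of_tendsto' l3 hb

theorem main {X : Type*} [MetricSpace X] [CompleteSpace X] [Nonempty X]
    (θ γ : ℝ≥0 → ℝ≥0) (ε₀ : ℝ≥0) (hε : 0 < ε₀) (hm : Monotone γ)
    (hs : ∀ s t, γ (s + t) ≤ γ s + γ t) (hz : γ ⁻¹' {0} = {0})
    (hθ : ∀ t, θ t ≤ ε₀ → γ t ≤ θ t) (T : X → Set X)
    (hT : ∀ x, (T x).Nonempty ∧ IsClosed (T x) ∧ Bornology.IsBounded (T x))
    (hcon : ∀ x y, hausdorffDist (T x) (T y) ≤ dist x y - θ (nndist x y)) :
    ∃ x, x ∈ T x := by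
  obtain ⟨x0⟩ := ‹Nonempty X›
  obtain ⟨x1, h1⟩ := (hT x0).1
  rcases eq_or_ne x0 x1 with rfl | hne
  · exact ⟨x0, h1⟩
  have h0 : γ 0 = 0 := by
    have : (0 : ℝ≥0) ∈ γ ⁻¹' {0} := by rw [hz]; rfl
    exact this
  set R : ℝ≥0 := nndist x0 x1 with hR
  have hRpos : 0 < R := by
    have : (0 : ℝ) < dist x0 x1 := dist_pos.2 hne
    exact this
  have hRr : (0 : ℝ) < R := hRpos
  have hgR : (0 : ℝ) < γ R := by
    have : γ R ≠ 0 := fun h => by
      have h' : R ∈ γ ⁻¹' {0} := h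
      rw [hz] at h'
      exact hRpos.ne' h'
    exact_mod_cast pos_iff_ne_zero.2 this
  have hεr : (0 : ℝ) < ε₀ := hε
  set c : ℝ := min 1 (min (ε₀ / R) (γ R / (2 * R))) with hc
  have hcpos : 0 < c := by rw [hc]; positivity
  refine local_nadler T hT (fun x y => ?_) R c hcpos (min_le_left _ _) (fun x y hxy => ?_) x0 x1 h1
    (by simp [hR])
  · have := hcon x y
    have h2 : (0 : ℝ) ≤ θ (nndist x y) := (θ _).2
    linarith
  · have h2 := hcon x y
    suffices h : c * dist x y ≤ θ (nndist x y) by linarith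
    rcases eq_or_ne x y with rfl | hxy'
    · simp
    have htpos : 0 < nndist x y := by
      have : (0 : ℝ) < dist x y := dist_pos.2 hxy'
      exact this
    have hd : 0 ≤ dist x y := dist_nonneg
    by_cases hcase : θ (nndist x y) ≤ ε₀
    · have e1 : (γ (nndist x y) : ℝ) ≤ θ (nndist x y) := hθ _ hcase
      have e2 := lin_lower γ h0 hm hs R (nndist x y) htpos hxy
      rw [coe_nndist] at e2
      have e3 : c ≤ γ R / (2 * R) := (min_le_right _ _).trans (min_le_right _ _)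
      calc c * dist x y ≤ γ R / (2 * R) * dist x y := by gcongr
        _ = (γ R * dist x y) / (2 * R) := by ring
        _ ≤ γ (nndist x y) := by rw [div_le_iff₀ (by positivity)]; linarith
        _ ≤ _ := e1
    · have e1 : (ε₀ : ℝ) ≤ θ (nndist x y) := (not_le.1 hcase).le
      have e3 : c ≤ ε₀ / R := (min_le_right _ _).trans (min_le_left _ _)
      calc c * dist x y ≤ ε₀ / R * R := by gcongr
        _ = ε₀ := by field_simp
        _ ≤ _ := e1

end Pool.Agent.H137Z.WeakContr
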